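import Mathlib
import Pool.Agent.H11.CS.Fibres

/-!
# The fibres of the tropical theta map

For every `n` the map `Θ` of all tropical theta constants is injective on every fundamental
domain of the action of `GL_n(ℤ)`, and its fibres on the cone of positive definite matrices
are exactly the orbits of the principal congruence subgroup of level two.
-/

set_option autoImplicit false

open Matrix

namespace Pool.Agent.Results.MP_16b7e9_gt.ExactFibres

variable {n : ℕ}

/-- `A[x]`, the value of the quadratic form of `A` at the real vector `x` -/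
def quad (A : Matrix (Fin n) (Fin n) ℝ) (x : Fin n → ℝ) : ℝ := x ⬝ᵥ (A *ᵥ x)

/-- `tcvp (A, v)`, the infimum (for positive definite `A` the minimum) of `A[x - v]` over the
integer vectors `x` -/
noncomputable def tcvp (A : Matrix (Fin n) (Fin n) ℝ) (v : Fin n → ℝ) : ℝ :=
  ⨅ x : Fin n → ℤ, quad A (fun i => (x i : ℝ) - v i)

/-- the characteristics: the nonzero vectors with all coordinates in `{0, 1/2}` -/
def Chars (n : ℕ) : Type := {v : Fin n → ℝ // v ≠ 0 ∧ ∀ i, v i = 0 ∨ v i = 1 / 2}

/-- the vector `Θ(A)` of the tropical theta constants `- tcvp (A, v)` -/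
noncomputable def Theta (A : Matrix (Fin n) (Fin n) ℝ) : Chars n → ℝ := fun v => -tcvp A v.1

/-- `B = Uᵀ A U` for some `U` in `GL_n(ℤ)` -/
def Equivalent (A B : Matrix (Fin n) (Fin n) ℝ) : Prop :=
  ∃ U : Matrix (Fin n) (Fin n) ℤ, IsUnit U.det ∧
    B = (U.map (Int.cast : ℤ → ℝ))ᵀ * A * U.map (Int.cast : ℤ → ℝ)

/-- `B = Uᵀ A U` for some `U` in `GL_n(ℤ)` congruent to the identity matrix modulo two -/
def EquivalentModTwo (A B : Matrix (Fin n) (Fin n) ℝ) : Prop :=
  ∃ U : Matrix (Fin n) (Fin n) ℤ, IsUnit U.det ∧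
    (∀ i j, (2 : ℤ) ∣ U i j - (1 : Matrix (Fin n) (Fin n) ℤ) i j) ∧
    B = (U.map (Int.cast : ℤ → ℝ))ᵀ * A * U.map (Int.cast : ℤ → ℝ)

/-- a set of positive definite matrices that contains exactly one matrix of each orbit -/
def IsFundamentalDomain (D : Set (Matrix (Fin n) (Fin n) ℝ)) : Prop :=
  (∀ A ∈ D, A.PosDef) ∧
    ∀ A : Matrix (Fin n) (Fin n) ℝ, A.PosDef → ∃! B, B ∈ D ∧ Equivalent A B

lemma refl_equivalent (A : Matrix (Fin n) (Fin n) ℝ) : Equivalent A A :=
  ⟨1, by simp, by simp⟩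

open Pool.H48.Vonorm in
/-- equality of the vectors `Θ` gives equality of the infima in the form used by the library -/
lemma half_eq_of_Theta {A B : Matrix (Fin n) (Fin n) ℝ} (hA : A.PosDef) (hB : B.PosDef)
    (h : Theta A = Theta B) (S : Finset (Fin n)) :
    (⨅ x : Fin n → ℤ, half A S x) = (⨅ x : Fin n → ℤ, half B S x) := by
  classical
  rcases S.eq_empty_or_nonempty with rfl | ⟨i, hi⟩
  · have key : ∀ M : Matrix (Fin n) (Fin n) ℝ, M.PosDef →
        (⨅ x : Fin n → ℤ, half M ∅ x) = 0 := by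
      intro M hM
      have hnn : ∀ x : Fin n → ℤ, 0 ≤ half M ∅ x := by
        intro x
        have := hM.posSemidef.dotProduct_mulVec_nonneg
          (fun i => (x i : ℝ) - (if i ∈ (∅ : Finset (Fin n)) then (1/2 : ℝ) else 0))
        simpa [half] using this
      apply le_antisymm
      · refine (ciInf_le ⟨0, ?_⟩ (0 : Fin n → ℤ)).trans ?_
        · rintro _ ⟨x, rfl⟩
          exact hnn x
        · simp [half]
      · exact le_ciInf hnn
    rw [key A hA, key B hB]
  · have hv : (fun j => if j ∈ S then (1/2 : ℝ) else 0) ≠ 0 := by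
      intro h0
      have := congrFun h0 i
      simp [hi] at this
    have h1 := congrFun h ⟨fun j => if j ∈ S then (1/2 : ℝ) else 0, hv, fun j => by
      by_cases hj : j ∈ S
      · right; simp [hj]
      · left; simp [hj]⟩
    have h2 := neg_injective h1
    exact h2

lemma quad_pull (A : Matrix (Fin n) (Fin n) ℝ) (U : Matrix (Fin n) (Fin n) ℤ) (x : Fin n → ℝ) :
    quad ((U.map (Int.cast : ℤ → ℝ))ᵀ * A * U.map (Int.cast : ℤ → ℝ)) x =
      quad A (U.map (Int.cast : ℤ → ℝ) *ᵥ x) := by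
  unfold quad
  rw [← Matrix.mulVec_mulVec, ← Matrix.mulVec_mulVec, Matrix.mulVec_transpose,
    dotProduct_comm, ← Matrix.dotProduct_mulVec, dotProduct_comm]

/-- matrices equivalent modulo two have the same tropical theta constants -/
lemma Theta_eq_of_equivalent {A B : Matrix (Fin n) (Fin n) ℝ} (h : EquivalentModTwo A B) :
    Theta A = Theta B := by
  obtain ⟨U, hU, h2, rfl⟩ := h
  funext v
  unfold Theta
  congr 1
  have hw : ∃ w : Fin n → ℤ, ∀ i, (w i : ℝ) = (U.map (Int.cast : ℤ → ℝ) *ᵥ v.1) i - v.1 i := by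
    choose d hd using h2
    have hv : ∃ u : Fin n → ℤ, ∀ j, v.1 j = (u j : ℝ) / 2 := by
      have : ∀ j, ∃ u : ℤ, v.1 j = (u : ℝ) / 2 := by
        intro j
        rcases v.2.2 j with h | h
        · exact ⟨0, by simp [h]⟩
        · exact ⟨1, by simp [h]⟩
      choose u hu using this
      exact ⟨u, hu⟩
    obtain ⟨u, hu⟩ := hv
    refine ⟨fun i => ∑ j, d i j * u j, fun i => ?_⟩
    have h1 : v.1 i = ∑ j, (1 : Matrix (Fin n) (Fin n) ℝ) i j * v.1 j := by
      simp [Matrix.one_apply]
    have h3 : (U.map (Int.cast : ℤ → ℝ) *ᵥ v.1) i = ∑ j, (U i j : ℝ) * v.1 j := by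
      simp [Matrix.mulVec, dotProduct]
    rw [h3]
    conv_rhs => rw [h1]
    rw [← Finset.sum_sub_distrib]
    push_cast
    refine Finset.sum_congr rfl fun j _ => ?_
    have h4 : (U i j : ℝ) - (1 : Matrix (Fin n) (Fin n) ℝ) i j = 2 * (d i j : ℝ) := by
      have := congrArg (Int.cast : ℤ → ℝ) (hd i j)
      push_cast at this
      rw [← this]
      congr 1
      simp [Matrix.one_apply]
    rw [← sub_mul, h4, hu j]
    ring
  obtain ⟨w, hw⟩ := hw
  unfold tcvp
  symm
  refine Function.Surjective.iInf_congr (fun x => fun i => (U *ᵥ x) i - w i) ?_ ?_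
  · intro y
    have hdet : IsUnit U := (Matrix.isUnit_iff_isUnit_det U).mpr hU
    obtain ⟨V, hV⟩ := hdet
    refine ⟨(V⁻¹ : (Matrix (Fin n) (Fin n) ℤ)ˣ).1 *ᵥ (y + w), ?_⟩
    funext i
    have : U *ᵥ ((V⁻¹ : (Matrix (Fin n) (Fin n) ℤ)ˣ).1 *ᵥ (y + w)) = y + w := by
      rw [Matrix.mulVec_mulVec, ← hV, Units.mul_inv, Matrix.one_mulVec]
    simp only [this, Pi.add_apply]
    ring
  · intro x
    rw [quad_pull]
    congr 1
    funext i
    have h5 : (U.map (Int.cast : ℤ → ℝ) *ᵥ fun i => (x i : ℝ) - v.1 i) i =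
        ((U *ᵥ x) i : ℝ) - (U.map (Int.cast : ℤ → ℝ) *ᵥ v.1) i := by
      have : (fun i => (x i : ℝ) - v.1 i) = (fun i => (x i : ℝ)) - v.1 := rfl
      rw [this, Matrix.mulVec_sub, Pi.sub_apply]
      congr 1
      simp [Matrix.mulVec, dotProduct]
    rw [h5]
    push_cast
    rw [hw i]
    ring

/-- For every `n`: the map `Θ` is injective on every fundamental domain of the action of
`GL_n(ℤ)` on the positive definite matrices, and two positive definite matrices have the same
image under `Θ` if and only if they are equivalent under the principal congruence subgroup of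
level two. -/
theorem result (n : ℕ) :
    (∀ D : Set (Matrix (Fin n) (Fin n) ℝ), IsFundamentalDomain D → Set.InjOn Theta D) ∧
    (∀ A B : Matrix (Fin n) (Fin n) ℝ, A.PosDef → B.PosDef →
      (Theta A = Theta B ↔ EquivalentModTwo A B)) := by
  have main : ∀ A B : Matrix (Fin n) (Fin n) ℝ, A.PosDef → B.PosDef →
      (Theta A = Theta B ↔ EquivalentModTwo A B) := by
    intro A B hA hB
    refine ⟨fun h => ?_, Theta_eq_of_equivalent⟩
    obtain ⟨U, h1, h2, h3⟩ :=
      Pool.H11.CS.equiv_mod_of_vonorm A B hA hB (half_eq_of_Theta hA hB h)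
    refine ⟨U, h1, fun i j => ?_, h3⟩
    have h4 := congrFun (h2 (Pi.single j 1)) i
    rw [Matrix.mulVec_single_one, Pool.H48.Vonorm.red_apply, Pool.H48.Vonorm.red_apply] at h4
    have h5 : ((U i j - (1 : Matrix (Fin n) (Fin n) ℤ) i j : ℤ) : ZMod 2) = 0 := by
      rw [Int.cast_sub, sub_eq_zero]
      have h6 : (1 : Matrix (Fin n) (Fin n) ℤ) i j = (Pi.single j 1 : Fin n → ℤ) i := by
        simp [Matrix.one_apply, Pi.single_apply]
      rw [h6]
      exact h4
    exact (ZMod.intCast_zmod_eq_zero_iff_dvd _ 2).mp h5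
  refine ⟨?_, main⟩
  intro D hD A hAD B hBD h
  have hA := hD.1 A hAD
  have hB := hD.1 B hBD
  obtain ⟨U, h1, _, h3⟩ := (main A B hA hB).mp h
  exact (hD.2 A hA).unique ⟨hAD, refl_equivalent A⟩ ⟨hBD, U, h1, h3⟩

end Pool.Agent.Results.MP_16b7e9_gt.ExactFibres
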